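import Mathlib

/-!
# Fibres near a degenerate fibre: definitions

Let `L` be a local field with residue characteristic `p`, `C` a smooth curve over `L` with a rational
point `0` and a coordinate `t` at `0`, and `𝒳 → C` a projective morphism, smooth outside of
`0`, with `𝒳` regular and such that the fibre `𝒳_0` is a reduced divisor with simple normal crossings.
The strata of `𝒳_0` are smooth projective varieties over `L`.

* For a prime `ℓ ≠ p` the nearby cycle cohomology `V` of `𝒳 → C` at `0` is a representation of the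
  Galois group of `L`, with a monodromy operator `N₀` given by the inertia group of `L` and
  a monodromy operator `N₁` given by the monodromy around `0`; they commute.
* The restriction of the sheaf of the cohomology groups of the fibres to a sufficiently small
  punctured disc around `0` is a representation of the group generated by the Galois group and by
  the monodromy around `0`. The cohomology of the fibre over a point of the disc
  whose coordinate `t` has valuation `v` is `V` with the monodromy operator `N₀ + v N₁`.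
-/

set_option autoImplicit false

namespace Pool.Agent.TH131.Near

section

variable {K V : Type} [Field K] [AddCommGroup V] [Module K V]

/-- `N ^ r` is a bijection from the subspace of weight `m + r` to the subspace of weight
`m - r`. -/
def PureOfWeight (W : ℤ → Submodule K V) (N : Module.End K V) (m : ℤ) : Prop :=
  ∀ r : ℕ, (∀ x ∈ W (m + r), (N ^ r) x = 0 → x = 0) ∧
    ∀ y ∈ W (m - r), ∃ x ∈ W (m + r), (N ^ r) x = y

/-- `L` is the monodromy filtration of `N`, centred at `m`: `N ^ r` is a bijection from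
`L (m + r) / L (m + r - 1)` to `L (m - r) / L (m - r - 1)`. -/
def IsMonodromyFiltration (L : ℤ → Submodule K V) (N : Module.End K V) (m : ℤ) : Prop :=
  ∀ r : ℕ, (∀ x ∈ L (m + r), (N ^ r) x ∈ L (m - r - 1) → x ∈ L (m + r - 1)) ∧
    ∀ y ∈ L (m - r), ∃ x ∈ L (m + r), (N ^ r) x - y ∈ L (m - r - 1)

end

/-- A representation of the Galois group of a local field on a vector space over `K`, with a
decomposition by weights: `wt j` is the sum of the generalized eigenspaces of a lift of the
Frobenius for the eigenvalues of weight `j`. `N` is the monodromy operator. -/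
structure Rep (K : Type) [Field K] where
  V : Type
  [group : AddCommGroup V]
  [module : Module K V]
  wt : ℤ → Submodule K V
  N : Module.End K V
  internal : DirectSum.IsInternal wt
  lower : ∀ j, ∀ x ∈ wt j, N x ∈ wt (j - 2)

attribute [instance] Rep.group Rep.module

/-- The monodromy-weight conjecture for `A = H^m`: the graded pieces of degree `r` of the
monodromy filtration have weight `m + r`. -/
def Rep.IsPure {K : Type} [Field K] (A : Rep K) (m : ℤ) : Prop := PureOfWeight A.wt A.N m

/-- `A` is the direct sum of the Tate twists `H i (-(t i))`. -/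
def Rep.IsSum {K : Type} [Field K] (A : Rep K) {I : Type} (H : I → Rep K) (t : I → ℤ) : Prop :=
  ∃ e : A.V ≃ₗ[K] (∀ i, (H i).V), (∀ x i, e (A.N x) i = (H i).N (e x i)) ∧
    ∀ j x, x ∈ A.wt j ↔ ∀ i, e x i ∈ (H i).wt (j - 2 * t i)

/-- A homomorphism of representations. -/
def Rep.IsHom {K : Type} [Field K] {A B : Rep K} (d : A.V →ₗ[K] B.V) : Prop :=
  (∀ x, d (A.N x) = B.N (d x)) ∧ ∀ j, ∀ x ∈ A.wt j, d x ∈ B.wt j

/-- The nearby cycle cohomology in degree `m`, with the decomposition by weights, the two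
monodromy operators, and the filtration `L` given by the weight spectral sequence of the degenerate
fibre. -/
structure Nearby (K : Type) [Field K] (m : ℕ) where
  V : Type
  [group : AddCommGroup V]
  [module : Module K V]
  wt : ℤ → Submodule K V
  L : ℤ → Submodule K V
  N₀ : Module.End K V
  N₁ : Module.End K V
  comm : N₀ * N₁ = N₁ * N₀
  N₀_mem : ∀ l j, ∀ x ∈ L l ⊓ wt j, N₀ x ∈ L l ⊓ wt (j - 2)
  N₁_mem : ∀ l j, ∀ x ∈ L l ⊓ wt j, N₁ x ∈ L (l - 2) ⊓ wt (j - 2)
  /-- there is a basis adapted to the weights and to `L` -/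
  adapted : ∃ (ι : Type) (_ : Fintype ι) (b : Module.Basis ι K V) (lev wgt : ι → ℕ),
    (∀ i, lev i ≤ 2 * m ∧ wgt i ≤ 2 * m) ∧
    (∀ l, L l = Submodule.span K (b '' {i | (lev i : ℤ) ≤ l})) ∧
    ∀ j, wt j = Submodule.span K (b '' {i | (wgt i : ℤ) = j})
  /-- `L` is the monodromy filtration of `N₁` (the field `L` has characteristic `0`, so this is
  known by Hodge theory) -/
  mono : IsMonodromyFiltration L N₁ m

attribute [instance] Nearby.group Nearby.module

/-- A linear relation between a representation and the nearby cycle cohomology. -/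
abbrev Nearby.Rel {K : Type} [Field K] {m : ℕ} (𝒱 : Nearby K m) (B : Rep K) : Type :=
  Submodule K (B.V × 𝒱.V)

/-- The relation `R`. -/
def Nearby.Related {K : Type} [Field K] {m : ℕ} {𝒱 : Nearby K m} {B : Rep K} (R : 𝒱.Rel B)
    (z : B.V) (x : 𝒱.V) : Prop := (z, x) ∈ R

/-- The relation `R` is the graph of an isomorphism of `Z / Y` with `L l / L (l - 1)`, compatible
with the weights and the monodromy operators: it relates the elements of `Z` and of `L l` whose
classes correspond to each other. -/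
structure Nearby.IsGraph {K : Type} [Field K] {m : ℕ} (𝒱 : Nearby K m) (l : ℤ) (B : Rep K)
    (Z Y : Submodule K B.V) (R : 𝒱.Rel B) : Prop where
  left : ∀ j, ∀ x ∈ 𝒱.L l ⊓ 𝒱.wt j, ∃ z ∈ Z ⊓ B.wt j, Nearby.Related R z x
  right : ∀ j, ∀ z ∈ Z ⊓ B.wt j, ∃ x ∈ 𝒱.L l ⊓ 𝒱.wt j, Nearby.Related R z x
  monodromy : ∀ z x, Nearby.Related R z x → Nearby.Related R (B.N z) (𝒱.N₀ x)
  zero : ∀ z x, Nearby.Related R z x → (x ∈ 𝒱.L (l - 1) ↔ z ∈ Y)

/-- The graded piece `L l / L (l - 1)` is the cohomology of a complex `A → B → C`. -/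
def Nearby.IsCohomology {K : Type} [Field K] {m : ℕ} (𝒱 : Nearby K m) (l : ℤ) (A B C : Rep K) :
    Prop :=
  ∃ (d : A.V →ₗ[K] B.V) (d' : B.V →ₗ[K] C.V) (R : 𝒱.Rel B),
    Rep.IsHom d ∧ Rep.IsHom d' ∧ LinearMap.range d ≤ LinearMap.ker d' ∧
    𝒱.IsGraph l B (LinearMap.ker d') (LinearMap.range d) R

/-- The representation `A` is the nearby cycle cohomology with the monodromy operator
`N₀ + a N₁`. -/
def Nearby.IsFibre {K : Type} [Field K] {m : ℕ} (𝒱 : Nearby K m) (a : K) (A : Rep K) : Prop :=
  ∃ e : A.V ≃ₗ[K] 𝒱.V, (∀ j x, x ∈ A.wt j ↔ e x ∈ 𝒱.wt j) ∧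
    ∀ x, e (A.N x) = 𝒱.N₀ (e x) + a • 𝒱.N₁ (e x)

/-- A family `𝒳 → C` with a degenerate fibre. -/
structure Degeneration (K : ℕ → Type) [∀ ℓ, Field (K ℓ)] where
  /-- the residue characteristic -/
  p : ℕ
  /-- the relative dimension of `𝒳 → C` -/
  dim : ℕ
  /-- the strata of the degenerate fibre -/
  Stratum : Type
  /-- `H^j(Y, ℚ_ℓ)` for a stratum `Y` -/
  stratum : Stratum → ∀ ℓ : ℕ, ℕ → Rep (K ℓ)
  /-- the nearby cycle cohomology -/
  nearby : ∀ ℓ m : ℕ, Nearby (K ℓ) m
  /-- the points, different from `0` and with coordinate in an algebraic closure, of a small disc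
  around `0` in `C` -/
  Point : Type
  /-- the valuation of the coordinate -/
  v : Point → ℚ
  /-- `H^m(𝒳_t, ℚ_ℓ)` -/
  fibre : Point → ∀ ℓ : ℕ, ℕ → Rep (K ℓ)

namespace Degeneration

variable {K : ℕ → Type} [∀ ℓ, Field (K ℓ)] (𝒟 : Degeneration K)

/-- `A` is a sum of groups `H^j(Y, ℚ_ℓ)(-t)`, where `j + 2 t = l` and `Y` is a stratum. -/
def IsSumOfStrata {ℓ : ℕ} (A : Rep (K ℓ)) (l : ℤ) : Prop :=
  ∃ (I : Type) (_ : Fintype I) (y : I → 𝒟.Stratum) (j : I → ℕ) (t : I → ℤ),
    (∀ i, j i + 2 * t i = l) ∧ A.IsSum (fun i => 𝒟.stratum (y i) ℓ (j i)) t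

/-- The weight spectral sequence (Rapoport and Zink, Steenbrink) for the degenerate fibre. -/
def WeightSpectralSequence : Prop :=
  ∀ ℓ : ℕ, ℓ.Prime → ℓ ≠ 𝒟.p → ∀ (m : ℕ) (l : ℤ), ∃ A B C : Rep (K ℓ),
    𝒟.IsSumOfStrata A l ∧ 𝒟.IsSumOfStrata B l ∧ 𝒟.IsSumOfStrata C l ∧
      (𝒟.nearby ℓ m).IsCohomology l A B C

/-- The cohomology of the fibres over the points of the small punctured disc. -/
def IsKummerNearZero : Prop :=
  ∀ ℓ : ℕ, ℓ.Prime → ℓ ≠ 𝒟.p → ∀ (m : ℕ) (t : 𝒟.Point),
    (𝒟.nearby ℓ m).IsFibre (𝒟.v t) (𝒟.fibre t ℓ m)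

end Degeneration

end Pool.Agent.TH131.Near
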