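import Pool.Agent.TH131.Near.Sl

/-!
# Two commuting monodromy operators: the main theorem of linear algebra
-/

set_option autoImplicit false

namespace Pool.Agent.TH131.Near

open Module Polynomial Pool.Agent.H914 Pool.Agent.H447 Pool.Agent.W498.Dom

/-- `N` is pure of weight `m` for the decomposition `W` by weights: `N ^ r` is a bijection from the
subspace of weight `m + r` to the subspace of weight `m - r`. -/
def IsPure {K : Type*} [Field K] {V : Type*} [AddCommGroup V] [Module K V] (W : ℤ → Submodule K V)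
    (N : Module.End K V) (m : ℤ) : Prop :=
  ∀ r : ℕ, (∀ x ∈ W (m + r), (N ^ r) x = 0 → x = 0) ∧
    ∀ y ∈ W (m - r), ∃ x ∈ W (m + r), (N ^ r) x = y

variable {K : Type*} [Field K] [CharZero K] {V : Type*} [AddCommGroup V] [Module K V] {ι : Type*}
  [Fintype ι] [DecidableEq ι] {b : Basis ι K V} {lev wgt : ι → ℕ} {m : ℕ}
  {N₀ N₁ : Module.End K V}

lemma comm_of_isHom {f : ι → ℕ} {y : Module.End K V} (hy : IsHom (part b f) 0 y) (n : ℕ) :
    y * wt (internal_part (b := b) f) n = wt (internal_part (b := b) f) n * y := by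
  have h1 := hy.wt_comm (internal_part (b := b) f) n
  rw [h1]
  simp

lemma wt_part (f : ι → ℕ) (n : ℕ) (i : ι) :
    wt (internal_part (b := b) f) n (b i) = ((f i : K) - n) • b i :=
  wt_apply (internal_part (b := b) f) n (basis_mem_sub rfl)

section

variable (A : Adapted b lev wgt m N₀ N₁)

include A

/-- The sum of the two weight operators acts on the subspace of weight `j` by `m - j`. -/
lemma Adapted.H_apply (i : ι) :
    (wt (internal_part (b := b) (levP lev m)) m +
      wt (internal_part (b := b) (levQ lev wgt m)) (2 * m)) (b i) =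
        ((m : K) - wgt i) • b i := by
  have h1 := A.lev_le i
  have h2 := A.wgt_le i
  rw [LinearMap.add_apply, wt_part, wt_part, ← add_smul]
  congr 1
  rw [levP, levQ, Nat.cast_sub h1, Nat.cast_sub (by omega)]
  push_cast
  ring

lemma Adapted.exists_sl2 (hL : IsMono (Lfil b lev) N₁ m)
    (hW : ∀ l, IsPurePiece (wts b wgt) (Lfil b lev) N₀ l) :
    ∃ f : Module.End K V, Sl2 (wt (internal_part (b := b) (levP lev m)) m +
      wt (internal_part (b := b) (levQ lev wgt m)) (2 * m)) (G0 b lev N₀ + G1 b lev N₁) f := by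
  have : Module.Finite K V := Module.Finite.of_basis b
  obtain ⟨f1, t1, -, -⟩ := Pool.Agent.H914.exists_sl2 (internal_part (b := b) (levP lev m))
    A.isHom_P1 (n := m) (fun i hi => part_eq_bot fun k => by
      simp only [levP]; omega) (A.hardLef_P hL)
  obtain ⟨f0, t0, -, -⟩ := Pool.Agent.H914.exists_sl2 (internal_part (b := b) (levQ lev wgt m))
    A.isHom_Q0 (n := 2 * m) (fun i hi => part_eq_bot fun k => by
      have := A.lev_le k
      simp only [levQ]; omega) (A.hardLef_Q hW)
  set HP := wt (internal_part (b := b) (levP lev m)) m with hHP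
  set HQ := wt (internal_part (b := b) (levQ lev wgt m)) (2 * m) with hHQ
  set g0 := G0 b lev N₀ with hg0
  set g1 := G1 b lev N₁ with hg1
  have c0 : g0 * HP = HP * g0 := comm_of_isHom A.isHom_P0 m
  have c1 : g1 * HQ = HQ * g1 := comm_of_isHom A.isHom_Q1 (2 * m)
  have cg : g0 * g1 = g1 * g0 := A.G_comm
  have cH : HQ * HP = HP * HQ := by
    apply b.ext
    intro i
    rw [Module.End.mul_apply, Module.End.mul_apply, wt_part, wt_part, map_smul, map_smul, wt_part,
      wt_part, smul_smul, smul_smul, mul_comm]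
  have d1 : g0 * f1 = f1 * g0 := comm_f t1 c0 cg
  have d2 : HQ * f1 = f1 * HQ := comm_f t1 cH c1.symm
  have d3 : g1 * f0 = f0 * g1 := comm_f t0 c1 cg.symm
  have d4 : HP * f0 = f0 * HP := comm_f t0 cH.symm c0.symm
  have d5 : f1 * f0 = f0 * f1 := comm_f t0 d2.symm d1.symm
  refine ⟨f0 + f1, ⟨?_, ?_, ?_⟩⟩
  · have e1 := t1.ef
    have e0 := t0.ef
    calc (g0 + g1) * (f0 + f1) - (f0 + f1) * (g0 + g1)
        = (g1 * f1 - f1 * g1) + (g0 * f0 - f0 * g0) + (g0 * f1 - f1 * g0) +
          (g1 * f0 - f0 * g1) := by noncomm_ring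
      _ = HP + HQ := by rw [e1, e0, d1, d3]; simp
  · have e1 := t1.he
    have e0 := t0.he
    calc (HP + HQ) * (g0 + g1) - (g0 + g1) * (HP + HQ)
        = (HP * g1 - g1 * HP) + (HQ * g0 - g0 * HQ) + (HP * g0 - g0 * HP) +
          (HQ * g1 - g1 * HQ) := by noncomm_ring
      _ = 2 * (g0 + g1) := by rw [e1, e0, c0, c1]; noncomm_ring
  · have e1 := t1.hf
    have e0 := t0.hf
    calc (HP + HQ) * (f0 + f1) - (f0 + f1) * (HP + HQ)
        = (HP * f1 - f1 * HP) + (HQ * f0 - f0 * HQ) + (HP * f0 - f0 * HP) +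
          (HQ * f1 - f1 * HQ) := by noncomm_ring
      _ = -(2 * (f0 + f1)) := by rw [e1, e0, d2, d4]; noncomm_ring

/-- A vector is of weight `m - c` if and only if the weight operator acts by `c`. -/
lemma Adapted.mem_wts_iff (c : ℤ) (x : V) : x ∈ wts b wgt (m - c) ↔
    (wt (internal_part (b := b) (levP lev m)) m +
      wt (internal_part (b := b) (levQ lev wgt m)) (2 * m)) x = (c : K) • x := by
  set H := wt (internal_part (b := b) (levP lev m)) m +
      wt (internal_part (b := b) (levQ lev wgt m)) (2 * m) with hH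
  have hrepr : ∀ i, b.repr (H x) i = ((m : K) - wgt i) * b.repr x i := by
    intro i
    conv_lhs => rw [← b.sum_repr x]
    rw [map_sum, map_sum, Finsupp.finsetSum_apply, Finset.sum_eq_single i]
    · rw [map_smul, hH, A.H_apply, map_smul, map_smul, Finsupp.smul_apply, Finsupp.smul_apply,
        b.repr_self, Finsupp.single_eq_same]
      simp only [smul_eq_mul]
      ring
    · intro j _ hj
      rw [map_smul, hH, A.H_apply, map_smul, map_smul, Finsupp.smul_apply, Finsupp.smul_apply,
        b.repr_self, Finsupp.single_eq_of_ne hj.symm]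
      simp
    · intro h; exact absurd (Finset.mem_univ i) h
  constructor
  · intro hx
    apply b.ext_elem
    intro i
    rw [hrepr, map_smul, Finsupp.smul_apply, smul_eq_mul]
    by_cases hi : (wgt i : ℤ) = m - c
    · have h1 : (wgt i : K) = m - c := by exact_mod_cast congrArg (fun z : ℤ => (z : K)) hi
      rw [h1]
      ring
    · rw [mem_sub.1 hx i hi]; simp
  · intro hx
    rw [wts, mem_sub]
    intro i hi
    have h1 := hrepr i
    rw [hx, map_smul, Finsupp.smul_apply, smul_eq_mul] at h1
    have h2 : ((c : K) - ((m : K) - wgt i)) * b.repr x i = 0 := by rw [sub_mul, h1, sub_self]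
    rcases mul_eq_zero.1 h2 with h3 | h3
    · exfalso
      apply hi
      have h4 : ((wgt i : ℤ) : K) = ((m - c : ℤ) : K) := by
        push_cast
        linear_combination h3
      exact Int.cast_injective h4
    · exact h3

/-- The graded operator is injective on the subspace of weight `m + r`. -/
lemma Adapted.G_inj (hL : IsMono (Lfil b lev) N₁ m)
    (hW : ∀ l, IsPurePiece (wts b wgt) (Lfil b lev) N₀ l) (r : ℕ) {x : V}
    (hx : x ∈ wts b wgt (m + r)) (h0 : ((G0 b lev N₀ + G1 b lev N₁) ^ r) x = 0) : x = 0 := by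
  have : Module.Finite K V := Module.Finite.of_basis b
  obtain ⟨f, t⟩ := A.exists_sl2 hL hW
  refine Pool.Agent.H447.e_pow_inj t (c := r) ?_ h0
  have h1 := (A.mem_wts_iff (-(r : ℤ)) x).1 (by rwa [sub_neg_eq_add])
  rw [h1]
  push_cast
  rfl

/-- The subspaces of weights `m + r` and `m - r` have the same dimension. -/
lemma Adapted.finrank_eq (hL : IsMono (Lfil b lev) N₁ m)
    (hW : ∀ l, IsPurePiece (wts b wgt) (Lfil b lev) N₀ l) (r : ℕ) :
    Module.finrank K (wts b wgt (m - r) : Submodule K V) ≤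
      Module.finrank K (wts b wgt (m + r) : Submodule K V) := by
  have : Module.Finite K V := Module.Finite.of_basis b
  obtain ⟨f, t⟩ := A.exists_sl2 hL hW
  have hmap : ∀ x ∈ wts b wgt (m - r), (f ^ r) x ∈ wts b wgt (m + r) := by
    intro x hx
    have h1 := (A.mem_wts_iff (r : ℤ) x).1 hx
    have h2 := t.h_f_pow' h1 r
    have h3 := (A.mem_wts_iff (-(r : ℤ)) ((f ^ r) x)).2 (by
      rw [h2]
      congr 1
      push_cast
      ring)
    rwa [sub_neg_eq_add] at h3
  refine LinearMap.finrank_le_finrank_of_injective (f := (f ^ r).restrict hmap) ?_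
  rw [← LinearMap.ker_eq_bot, LinearMap.ker_eq_bot']
  intro x hx
  apply Subtype.ext
  have h1 := (A.mem_wts_iff (r : ℤ) x.1).1 x.2
  refine f_pow_inj t (c := r) (by rw [h1]; push_cast; rfl) ?_
  have := congrArg Subtype.val hx
  simpa using this

omit A in
lemma wts_eq_bot (h : ∀ i, wgt i ≤ 2 * m) {r : ℕ} (hr : m < r) : wts b wgt ((m : ℤ) + r) = ⊥ := by
  rw [eq_bot_iff]
  intro x hx
  rw [Submodule.mem_bot]
  apply b.ext_elem
  intro i
  rw [map_zero, Finsupp.zero_apply]
  refine mem_sub.1 hx i ?_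
  intro hi
  have h1 : (wgt i : ℤ) = m + r := hi
  have := h i
  omega

/-- Scaling by levels. -/
noncomputable def _root_.Pool.Agent.TH131.Near.scale (b : Basis ι K V) (lev : ι → ℕ) (s : K) :
    Module.End K V := Matrix.toLin b b (Matrix.diagonal fun i => s ^ lev i)

omit [CharZero K] A in
lemma scale_basis (s : K) (i : ι) : scale b lev s (b i) = s ^ lev i • b i := by
  rw [scale, Matrix.toLin_self, Finset.sum_eq_single i]
  · rw [Matrix.diagonal_apply_eq]
  · intro j _ hj
    rw [Matrix.diagonal_apply_ne _ hj, zero_smul]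
  · intro h; exact absurd (Finset.mem_univ i) h

omit [CharZero K] A in
lemma scale_scale {s : K} (hs : s ≠ 0) (x : V) : scale b lev s (scale b lev s⁻¹ x) = x := by
  have : scale b lev s * scale b lev s⁻¹ = 1 := by
    apply b.ext
    intro i
    rw [Module.End.mul_apply, scale_basis, map_smul, scale_basis, smul_smul, ← mul_pow,
      inv_mul_cancel₀ hs, one_pow, one_smul]
    rfl
  rw [← Module.End.mul_apply, this]
  rfl

omit [CharZero K] in
lemma Adapted.intertwine {s : K} (hs : s ≠ 0) :
    (N₀ + (s⁻¹ ^ 2) • N₁) * scale b lev s = scale b lev s * ev b (P0 b lev N₀ + P1 b lev N₁) s := by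
  apply b.ext
  intro i
  apply b.ext_elem
  intro k
  rw [Module.End.mul_apply, Module.End.mul_apply, scale_basis, map_smul]
  have h1 : ∀ x : V, b.repr (scale b lev s x) k = s ^ lev k * b.repr x k := by
    intro x
    conv_lhs => rw [← b.sum_repr x]
    rw [map_sum, map_sum, Finsupp.finsetSum_apply, Finset.sum_eq_single k]
    · rw [map_smul, scale_basis, map_smul, map_smul, Finsupp.smul_apply, Finsupp.smul_apply,
        b.repr_self, Finsupp.single_eq_same]
      simp only [smul_eq_mul]
      ring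
    · intro j _ hj
      rw [map_smul, scale_basis, map_smul, map_smul, Finsupp.smul_apply, Finsupp.smul_apply,
        b.repr_self, Finsupp.single_eq_of_ne hj.symm]
      simp
    · intro h; exact absurd (Finset.mem_univ k) h
  rw [h1, ev_repr, map_smul, Finsupp.smul_apply, LinearMap.add_apply, map_add, Finsupp.add_apply,
    LinearMap.smul_apply, map_smul, Finsupp.smul_apply, Matrix.add_apply, eval_add]
  simp only [P0, P1, Matrix.of_apply, eval_mul, eval_C, eval_pow, eval_X, smul_eq_mul]
  by_cases hk : wgt k + 2 = wgt i ∧ lev k ≤ lev i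
  · have e1 : s ^ lev i = s ^ lev k * s ^ (lev i - lev k) := by
      rw [← pow_add]; congr 1; omega
    by_cases hk2 : wgt k + 2 = wgt i ∧ lev k + 2 ≤ lev i
    · have e2 : s ^ lev i = s ^ 2 * (s ^ lev k * s ^ (lev i - lev k - 2)) := by
        rw [← pow_add, ← pow_add]; congr 1; omega
      have e3 : s⁻¹ ^ 2 * s ^ lev i = s ^ lev k * s ^ (lev i - lev k - 2) := by
        rw [e2, ← mul_assoc, ← mul_pow, inv_mul_cancel₀ hs, one_pow, one_mul]
      calc s ^ lev i * ((b.repr (N₀ (b i))) k + s⁻¹ ^ 2 * (b.repr (N₁ (b i))) k)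
          = s ^ lev i * (b.repr (N₀ (b i))) k + (s⁻¹ ^ 2 * s ^ lev i) * (b.repr (N₁ (b i))) k := by
            ring
        _ = _ := by rw [e3, e1]; ring
    · rw [A.c1_zero hk2, e1]; ring
  · have hk2 : ¬ (wgt k + 2 = wgt i ∧ lev k + 2 ≤ lev i) := fun h => hk ⟨h.1, by omega⟩
    rw [A.c0_zero hk, A.c1_zero hk2]; ring

omit [CharZero K] in
lemma Adapted.intertwine_pow {s : K} (hs : s ≠ 0) (r : ℕ) (x : V) :
    ((N₀ + (s⁻¹ ^ 2) • N₁) ^ r) (scale b lev s x) =
      scale b lev s ((ev b (P0 b lev N₀ + P1 b lev N₁) s ^ r) x) := by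
  induction r generalizing x with
  | zero => simp
  | succ r ih =>
    rw [pow_succ, Module.End.mul_apply, ← Module.End.mul_apply (N₀ + _), A.intertwine hs,
      Module.End.mul_apply, ih, pow_succ, Module.End.mul_apply]

/-- **Main theorem.** If the filtration by levels is the monodromy filtration of `N₁` and its graded
pieces are pure for `N₀`, then `N₀ + a N₁` is pure for all values of `a` outside of the
zeros of a nonzero polynomial. -/
theorem Adapted.main (hL : IsMono (Lfil b lev) N₁ m)
    (hW : ∀ l, IsPurePiece (wts b wgt) (Lfil b lev) N₀ l) :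
    ∃ p : K[X], p ≠ 0 ∧ ∀ a : K, p.eval a ≠ 0 → IsPure (wts b wgt) (N₀ + a • N₁) m := by
  have : Module.Finite K V := Module.Finite.of_basis b
  -- one value of the parameter
  have h1 : ∀ r : ℕ, ∃ p : K[X], p.eval 0 ≠ 0 ∧ ∀ s, p.eval s ≠ 0 → ∀ x ∈ wts b wgt (m + r),
      ev b ((P0 b lev N₀ + P1 b lev N₁) ^ r) s x = 0 → x = 0 := by
    intro r
    refine generic_injective _ _ 0 fun x hx h0 => A.G_inj hL hW r hx ?_
    rwa [ev_pow, ev_add] at h0
  choose p hp0 hp using h1
  obtain ⟨s, hs⟩ : ∃ s : K, (X * ∏ r ∈ Finset.range (m + 1), p r).eval s ≠ 0 := by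
    by_contra hcon
    push Not at hcon
    have h2 : X * ∏ r ∈ Finset.range (m + 1), p r = 0 := Polynomial.funext fun s => by
      rw [hcon s, eval_zero]
    rcases mul_eq_zero.1 h2 with h3 | h3
    · exact X_ne_zero h3
    · obtain ⟨r, _, hr⟩ := Finset.prod_eq_zero_iff.1 h3
      apply hp0 r
      rw [hr, eval_zero]
  rw [eval_mul, eval_X] at hs
  have hs0 : s ≠ 0 := fun h => hs (by rw [h, zero_mul])
  have hsp : ∀ r, r ≤ m → (p r).eval s ≠ 0 := by
    intro r hr h
    apply hs
    rw [eval_prod, Finset.prod_eq_zero (Finset.mem_range.2 (Nat.lt_succ_of_le hr)) h, mul_zero]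
  have hscale : ∀ (c : K) (j : ℤ), ∀ x ∈ wts b wgt j, scale b lev c x ∈ wts b wgt j := by
    intro c j x hx
    refine sub_map hx fun i hi => ?_
    rw [scale_basis]
    exact Submodule.smul_mem _ _ (basis_mem_sub hi)
  have h2 : ∀ r, r ≤ m → ∀ x ∈ wts b wgt (m + r),
      ((N₀ + (s⁻¹ ^ 2) • N₁) ^ r) x = 0 → x = 0 := by
    intro r hr x hx h0
    rw [← scale_scale (b := b) (lev := lev) hs0 x, A.intertwine_pow hs0] at h0
    have h3 : (ev b (P0 b lev N₀ + P1 b lev N₁) s ^ r) (scale b lev s⁻¹ x) = 0 := by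
      have h4 := congrArg (scale b lev s⁻¹) h0
      have h5 := scale_scale (b := b) (lev := lev) (inv_ne_zero hs0)
        ((ev b (P0 b lev N₀ + P1 b lev N₁) s ^ r) (scale b lev s⁻¹ x))
      rw [inv_inv] at h5
      rw [h5, map_zero] at h4
      exact h4
    have h4 := hp r s (hsp r hr) (scale b lev s⁻¹ x) (hscale _ _ x hx) (by rwa [ev_pow])
    rw [← scale_scale (b := b) (lev := lev) hs0 x, h4, map_zero]
  -- all values of the parameter
  have hev : ∀ a : K, ev b (con b N₀ + (X : K[X]) • con b N₁) a = N₀ + a • N₁ := by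
    intro a
    rw [ev_add, ev_con]
    congr 1
    have h3 : ev b ((X : K[X]) • con b N₁) a = a • ev b (con b N₁) a := by
      rw [ev, ev, ← map_smul]
      congr 1
      ext i j
      simp
    rw [h3, ev_con]
  have h3 : ∀ r : ℕ, ∃ q : K[X], q ≠ 0 ∧ ∀ a, q.eval a ≠ 0 → ∀ x ∈ wts b wgt (m + r),
      ((N₀ + a • N₁) ^ r) x = 0 → x = 0 := by
    intro r
    by_cases hr : r ≤ m
    · obtain ⟨q, hq0, hq⟩ := generic_injective ((con b N₀ + (X : K[X]) • con b N₁) ^ r)
        (wts b wgt (m + r)) (s⁻¹ ^ 2) (fun x hx h0 => h2 r hr x hx (by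
          rwa [ev_pow, hev] at h0))
      refine ⟨q, fun h => hq0 (by rw [h, eval_zero]), fun a ha x hx h0 => hq a ha x hx ?_⟩
      rwa [ev_pow, hev]
    · refine ⟨1, one_ne_zero, fun a _ x hx _ => ?_⟩
      rw [wts_eq_bot A.wgt_le (by omega)] at hx
      exact (Submodule.mem_bot K).1 hx
  choose q hq0 hq using h3
  refine ⟨∏ r ∈ Finset.range (m + 1), q r, Finset.prod_ne_zero_iff.2 fun r _ => hq0 r,
    fun a ha r => ?_⟩
  have hinj : ∀ x ∈ wts b wgt (m + r), ((N₀ + a • N₁) ^ r) x = 0 → x = 0 := by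
    by_cases hr : r ≤ m
    · refine hq r a ?_
      intro h
      apply ha
      rw [eval_prod, Finset.prod_eq_zero (Finset.mem_range.2 (Nat.lt_succ_of_le hr)) h]
    · intro x hx _
      rw [wts_eq_bot A.wgt_le (by omega)] at hx
      exact (Submodule.mem_bot K).1 hx
  refine ⟨hinj, ?_⟩
  -- surjectivity
  have hlow : ∀ (n : ℕ) (j : ℤ), ∀ x ∈ wts b wgt j, ((N₀ + a • N₁) ^ n) x ∈ wts b wgt (j - 2 * n) := by
    intro n
    induction n with
    | zero => intro j x hx; simpa using hx
    | succ n ih =>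
      intro j x hx
      rw [pow_succ', Module.End.mul_apply]
      have h4 := ih j x hx
      refine sub_map h4 fun i hi => ?_
      have hi' : (wgt i : ℤ) = j - 2 * n := hi
      rw [LinearMap.add_apply, LinearMap.smul_apply]
      refine add_mem ?_ (Submodule.smul_mem _ _ ?_)
      · refine sub_mono ?_ (A.h0 i)
        intro k hk
        have := hk.1
        change (wgt k : ℤ) = _
        push_cast
        omega
      · refine sub_mono ?_ (A.h1 i)
        intro k hk
        have := hk.1
        change (wgt k : ℤ) = _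
        push_cast
        omega
  have hmap : ∀ x ∈ wts b wgt (m + r), ((N₀ + a • N₁) ^ r) x ∈ wts b wgt (m - r) := by
    intro x hx
    have h4 := hlow r _ x hx
    convert h4 using 2
    ring
  let F := ((N₀ + a • N₁) ^ r).restrict hmap
  have hF : Function.Injective F := by
    rw [← LinearMap.ker_eq_bot, LinearMap.ker_eq_bot']
    intro x hx
    apply Subtype.ext
    refine hinj x.1 x.2 ?_
    have := congrArg Subtype.val hx
    simpa [F] using this
  have hdim : Module.finrank K (wts b wgt (m + r) : Submodule K V) =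
      Module.finrank K (wts b wgt (m - r) : Submodule K V) :=
    le_antisymm (LinearMap.finrank_le_finrank_of_injective hF) (A.finrank_eq hL hW r)
  have hsurj := (LinearMap.injective_iff_surjective_of_finrank_eq_finrank hdim).1 hF
  intro y hy
  obtain ⟨x, hx⟩ := hsurj ⟨y, hy⟩
  exact ⟨x.1, x.2, congrArg Subtype.val hx⟩

end

end Pool.Agent.TH131.Near
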