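import Pool.Agent.TH131.Near.Defs
import Pool.Agent.TH131.Near.Main

/-!
# Fibres near a degenerate fibre: the proof
-/

set_option autoImplicit false

namespace Pool.Agent.TH131.Near

open Module

section

variable {K : Type} [Field K]

lemma Rep.exists_comp (A : Rep K) (x : A.V) (j : ℤ) : ∃ y ∈ A.wt j, ∀ (B : Rep K)
    (d : A.V →ₗ[K] B.V), (∀ j, ∀ x ∈ A.wt j, d x ∈ B.wt j) → d x ∈ B.wt j → d y = d x := by
  classical
  let c := (LinearEquiv.ofBijective (DirectSum.coeLinearMap A.wt) A.internal).symm x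
  have hc : DirectSum.coeLinearMap A.wt c = x := LinearEquiv.apply_symm_apply
    (LinearEquiv.ofBijective (DirectSum.coeLinearMap A.wt) A.internal) x
  have hx : x = ∑ i ∈ DFinsupp.support c, (c i : A.V) := by
    conv_lhs => rw [← hc, DirectSum.coeLinearMap_eq_dfinsuppSum]
    rfl
  refine ⟨c j, (c j).2, fun B d hd hdx => ?_⟩
  -- compare the components of `d x`
  have hu : ∀ (f : ℤ → B.V), (∀ i, f i ∈ B.wt i) → ∀ s : Finset ℤ, j ∈ s →
      ∑ i ∈ s, f i ∈ B.wt j → f j = ∑ i ∈ s, f i := by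
    intro f hf s hjs hs
    have hind := B.internal.submodule_iSupIndep
    have h1 : ∑ i ∈ s.erase j, f i ∈ ⨆ i, ⨆ (_ : i ≠ j), B.wt i := by
      refine Submodule.sum_mem _ fun i hi => ?_
      exact Submodule.mem_iSup_of_mem i (Submodule.mem_iSup_of_mem (Finset.ne_of_mem_erase hi) (hf i))
    have h2 : ∑ i ∈ s.erase j, f i ∈ B.wt j := by
      rw [← Finset.add_sum_erase s f hjs] at hs
      exact (Submodule.add_mem_iff_right _ (hf j)).1 hs
    have h3 := Submodule.disjoint_def.1 (hind j) _ h2 h1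
    rw [← Finset.add_sum_erase s f hjs, h3, add_zero]
  have h4 := hu (fun i => d (c i)) (fun i => hd i _ (c i).2) (insert j (DFinsupp.support c))
    (Finset.mem_insert_self _ _)
  have h5 : ∑ i ∈ insert j (DFinsupp.support c), d (c i : A.V) = d x := by
    rw [← map_sum]
    congr 1
    by_cases hj : j ∈ DFinsupp.support c
    · rw [Finset.insert_eq_of_mem hj, ← hx]
    · rw [Finset.sum_insert hj, ← hx]
      have : c j = 0 := by simpa using hj
      rw [this]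
      simp
  rw [h5] at h4
  exact h4 hdx

lemma pow_hom {A B : Rep K} {d : A.V →ₗ[K] B.V} (h : ∀ x, d (A.N x) = B.N (d x)) (r : ℕ) (x : A.V) :
    d ((A.N ^ r) x) = (B.N ^ r) (d x) := by
  induction r generalizing x with
  | zero => simp
  | succ r ih => rw [pow_succ, Module.End.mul_apply, ih, h, pow_succ, Module.End.mul_apply]

lemma Rep.pow_lower (A : Rep K) (r : ℕ) {j : ℤ} {x : A.V} (hx : x ∈ A.wt j) :
    (A.N ^ r) x ∈ A.wt (j - 2 * r) := by
  induction r with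
  | zero => simpa using hx
  | succ r ih =>
    rw [pow_succ', Module.End.mul_apply]
    have h1 := A.lower _ _ ih
    convert h1 using 2
    push_cast
    ring

/-- The cohomology of a complex of pure representations is pure. -/
lemma purePiece_of_cohomology {m : ℕ} (𝒱 : Nearby K m) (l : ℤ) {A B C : Rep K}
    (hA : A.IsPure l) (hB : B.IsPure l) (hC : C.IsPure l) (h : 𝒱.IsCohomology l A B C) :
    IsPurePiece 𝒱.wt 𝒱.L 𝒱.N₀ l := by
  obtain ⟨d, d', R, hd, hd', hdd, h1, h2, h3, h4⟩ := h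
  unfold Nearby.Related at h1 h2 h3 h4
  have h3' : ∀ (r : ℕ) z x, (z, x) ∈ R → ((B.N ^ r) z, (𝒱.N₀ ^ r) x) ∈ R := by
    intro r
    induction r with
    | zero => intro z x hzx; simpa using hzx
    | succ r ih =>
      intro z x hzx
      rw [pow_succ', pow_succ', Module.End.mul_apply, Module.End.mul_apply]
      exact h3 _ _ (ih z x hzx)
  intro r
  constructor
  · intro x hx hx0
    obtain ⟨z, ⟨hz', hz⟩, hzx⟩ := h1 _ x hx
    obtain ⟨a, ha⟩ := (h4 _ _ (h3' r z x hzx)).1 hx0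
    obtain ⟨a', ha', hda'⟩ := A.exists_comp a (l - r)
    have hw : (B.N ^ r) z ∈ B.wt (l - r) := by
      have := B.pow_lower r hz
      convert this using 2
      ring
    have h5 : d a' = (B.N ^ r) z := by
      rw [hda' B d hd.2 (by rw [ha]; exact hw), ha]
    obtain ⟨a'', ha'', haa⟩ := (hA r).2 a' ha'
    have h6 : (B.N ^ r) (z - d a'') = 0 := by
      rw [map_sub, ← pow_hom hd.1, haa, h5, sub_self]
    have h7 := (hB r).1 (z - d a'') (sub_mem hz (hd.2 _ _ ha'')) h6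
    exact (h4 z x hzx).2 ⟨a'', (sub_eq_zero.1 h7).symm⟩
  · intro y hy
    obtain ⟨z, ⟨hz', hz⟩, hzy⟩ := h1 _ y hy
    obtain ⟨z', hz1, hz2⟩ := (hB r).2 z hz
    have h5 : d' z' = 0 := by
      refine (hC r).1 _ (hd'.2 _ _ hz1) ?_
      rw [← pow_hom hd'.1, hz2]
      exact hz'
    obtain ⟨x, hx, hzx⟩ := h2 _ z' ⟨h5, hz1⟩
    refine ⟨x, hx, ?_⟩
    have h6 := h3' r z' x hzx
    rw [hz2] at h6
    have h7 := sub_mem h6 hzy
    have h8 : ((z, (𝒱.N₀ ^ r) x) - (z, y) : B.V × 𝒱.V) = (0, (𝒱.N₀ ^ r) x - y) := by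
      rw [Prod.mk_sub_mk, sub_self]
    rw [h8] at h7
    exact (h4 _ _ h7).2 ⟨0, map_zero d⟩

lemma isPure_of_isSum {A : Rep K} {I : Type} {H : I → Rep K} {t : I → ℤ} {j : I → ℕ} {l : ℤ}
    (hj : ∀ i, j i + 2 * t i = l) (hH : ∀ i, (H i).IsPure (j i)) (h : A.IsSum H t) :
    A.IsPure l := by
  obtain ⟨e, h1, h2⟩ := h
  have hN : ∀ (r : ℕ) x i, e ((A.N ^ r) x) i = ((H i).N ^ r) (e x i) := by
    intro r
    induction r with
    | zero => intro x i; simp
    | succ r ih =>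
      intro x i
      rw [pow_succ, Module.End.mul_apply, ih, h1, pow_succ, Module.End.mul_apply]
  intro r
  constructor
  · intro x hx hx0
    apply e.injective
    funext i
    rw [map_zero, Pi.zero_apply]
    refine (hH i r).1 _ ?_ ?_
    · have := (h2 _ _).1 hx i
      convert this using 2
      have := hj i
      omega
    · rw [← hN, hx0, map_zero, Pi.zero_apply]
  · intro y hy
    have h3 : ∀ i, ∃ x ∈ (H i).wt (j i + r), ((H i).N ^ r) x = e y i := by
      intro i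
      refine (hH i r).2 _ ?_
      have := (h2 _ _).1 hy i
      convert this using 2
      have := hj i
      omega
    choose x hx hxy using h3
    refine ⟨e.symm x, (h2 _ _).2 fun i => ?_, ?_⟩
    · rw [LinearEquiv.apply_symm_apply]
      have := hx i
      convert this using 2
      have := hj i
      omega
    · apply e.injective
      funext i
      rw [hN, LinearEquiv.apply_symm_apply, hxy]

end

/-- The main theorem for nearby cycles. -/
theorem Nearby.main {K : Type} [Field K] [CharZero K] {m : ℕ} (𝒱 : Nearby K m)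
    (hW : ∀ l, IsPurePiece 𝒱.wt 𝒱.L 𝒱.N₀ l) :
    ∃ p : Polynomial K, p ≠ 0 ∧ ∀ a : K, p.eval a ≠ 0 →
      PureOfWeight 𝒱.wt (𝒱.N₀ + a • 𝒱.N₁) m := by
  classical
  obtain ⟨ι, _, b, lev, wgt, hle, hL, hwt⟩ := 𝒱.adapted
  have hmem : ∀ i, b i ∈ 𝒱.L (lev i) ⊓ 𝒱.wt (wgt i) := by
    intro i
    refine ⟨?_, ?_⟩
    · rw [hL]
      exact Submodule.subset_span ⟨i, show (lev i : ℤ) ≤ lev i from le_rfl, rfl⟩
    · rw [hwt]
      exact Submodule.subset_span ⟨i, show (wgt i : ℤ) = wgt i from rfl, rfl⟩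
  have A : Adapted b lev wgt m 𝒱.N₀ 𝒱.N₁ := by
    refine ⟨fun i => (hle i).1, fun i => (hle i).2, 𝒱.comm, fun i => ?_, fun i => ?_⟩
    · obtain ⟨h1, h2⟩ := 𝒱.N₀_mem _ _ _ (hmem i)
      rw [hL] at h1
      rw [hwt] at h2
      have h3 := sub_inf (b := b) (s := {k | (lev k : ℤ) ≤ lev i})
        (t := {k | (wgt k : ℤ) = wgt i - 2}) h1 h2
      refine sub_mono ?_ h3
      intro k hk
      have h4 : (lev k : ℤ) ≤ lev i := hk.1
      have h5 : (wgt k : ℤ) = wgt i - 2 := hk.2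
      refine ⟨?_, ?_⟩ <;> omega
    · obtain ⟨h1, h2⟩ := 𝒱.N₁_mem _ _ _ (hmem i)
      rw [hL] at h1
      rw [hwt] at h2
      have h3 := sub_inf (b := b) (s := {k | (lev k : ℤ) ≤ lev i - 2})
        (t := {k | (wgt k : ℤ) = wgt i - 2}) h1 h2
      refine sub_mono ?_ h3
      intro k hk
      have h4 : (lev k : ℤ) ≤ lev i - 2 := hk.1
      have h5 : (wgt k : ℤ) = wgt i - 2 := hk.2
      refine ⟨?_, ?_⟩ <;> omega
  have eL : 𝒱.L = Lfil b lev := funext hL
  have ew : 𝒱.wt = wts b wgt := funext hwt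
  have hmono := 𝒱.mono
  rw [eL] at hmono
  rw [eL, ew] at hW
  obtain ⟨p, hp, h⟩ := A.main hmono hW
  refine ⟨p, hp, fun a ha => ?_⟩
  rw [ew]
  exact h a ha

namespace Degeneration

variable {K : ℕ → Type} [∀ ℓ, Field (K ℓ)] [∀ ℓ, CharZero (K ℓ)] (𝒟 : Degeneration K)

theorem near_one (hs : 𝒟.WeightSpectralSequence) (hk : 𝒟.IsKummerNearZero) {ℓ : ℕ} (hℓ : ℓ.Prime)
    (hℓp : ℓ ≠ 𝒟.p) (h : ∀ (Y : 𝒟.Stratum) (j : ℕ), (𝒟.stratum Y ℓ j).IsPure j) (m : ℕ) :
    ∃ S : Finset ℚ, ∀ t : 𝒟.Point, 𝒟.v t ∉ S → (𝒟.fibre t ℓ m).IsPure m := by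
  classical
  have hsum : ∀ (A : Rep (K ℓ)) (l : ℤ), 𝒟.IsSumOfStrata A l → A.IsPure l := by
    rintro A l ⟨I, _, y, j, t, hj, hA⟩
    exact isPure_of_isSum hj (fun i => h (y i) (j i)) hA
  have hW : ∀ l, IsPurePiece (𝒟.nearby ℓ m).wt (𝒟.nearby ℓ m).L (𝒟.nearby ℓ m).N₀ l := by
    intro l
    obtain ⟨A, B, C, hA, hB, hC, hco⟩ := hs ℓ hℓ hℓp m l
    exact purePiece_of_cohomology _ l (hsum A l hA) (hsum B l hB) (hsum C l hC) hco
  obtain ⟨p, hp, hmain⟩ := (𝒟.nearby ℓ m).main hW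
  have hfin : {q : ℚ | p.eval (q : K ℓ) = 0}.Finite := by
    have h1 : {q : ℚ | p.eval (q : K ℓ) = 0} ⊆ (fun q : ℚ => (q : K ℓ)) ⁻¹' (p.roots.toFinset) := by
      intro q hq
      simp only [Set.mem_preimage, Finset.mem_coe, Multiset.mem_toFinset]
      exact (Polynomial.mem_roots hp).2 hq
    exact (Set.Finite.preimage (Rat.cast_injective.injOn) (Finset.finite_toSet _)).subset h1
  refine ⟨hfin.toFinset, fun t ht => ?_⟩
  have ht' : p.eval (𝒟.v t : K ℓ) ≠ 0 := by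
    intro h0
    apply ht
    rw [Set.Finite.mem_toFinset]
    exact h0
  have hpure := hmain _ ht'
  obtain ⟨e, he1, he2⟩ := hk ℓ hℓ hℓp m t
  have hN : ∀ (r : ℕ) x, e (((𝒟.fibre t ℓ m).N ^ r) x) =
      (((𝒟.nearby ℓ m).N₀ + (𝒟.v t : K ℓ) • (𝒟.nearby ℓ m).N₁) ^ r) (e x) := by
    intro r
    induction r with
    | zero => intro x; simp
    | succ r ih =>
      intro x
      rw [pow_succ, Module.End.mul_apply, ih, he2, pow_succ, Module.End.mul_apply]
      rfl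
  intro r
  constructor
  · intro x hx hx0
    apply e.injective
    rw [map_zero]
    refine (hpure r).1 _ ((he1 _ _).1 hx) ?_
    rw [← hN, hx0, map_zero]
  · intro y hy
    obtain ⟨x, hx, hxy⟩ := (hpure r).2 _ ((he1 _ _).1 hy)
    refine ⟨e.symm x, (he1 _ _).2 (by rwa [LinearEquiv.apply_symm_apply]), ?_⟩
    apply e.injective
    rw [hN, LinearEquiv.apply_symm_apply, hxy]

theorem near (hs : 𝒟.WeightSpectralSequence) (hk : 𝒟.IsKummerNearZero) {ℓ : ℕ} (hℓ : ℓ.Prime)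
    (hℓp : ℓ ≠ 𝒟.p) (h : ∀ (Y : 𝒟.Stratum) (j : ℕ), (𝒟.stratum Y ℓ j).IsPure j) :
    ∃ S : Finset ℚ, ∀ t : 𝒟.Point, 𝒟.v t ∉ S → ∀ m : ℕ, m ≤ 2 * 𝒟.dim →
      (𝒟.fibre t ℓ m).IsPure m := by
  classical
  choose S hS using 𝒟.near_one hs hk hℓ hℓp h
  refine ⟨(Finset.range (2 * 𝒟.dim + 1)).biUnion S, fun t ht m hm => hS m t fun h' => ht ?_⟩
  exact Finset.mem_biUnion.2 ⟨m, Finset.mem_range.2 (by omega), h'⟩

end Degeneration

end Pool.Agent.TH131.Near
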