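import Pool.Agent.TH131.Near.Lin

/-!
# Two commuting monodromy operators: the graded operators
-/

set_option autoImplicit false

namespace Pool.Agent.TH131.Near

open Module Polynomial Pool.Agent.H914 Pool.Agent.H447 Pool.Agent.W498.Dom

variable {K : Type*} [Field K] {V : Type*} [AddCommGroup V] [Module K V] {ι : Type*} [Fintype ι]
  [DecidableEq ι] {b : Basis ι K V} {lev wgt : ι → ℕ} {m : ℕ} {N₀ N₁ : Module.End K V}

/-- The filtration by levels. -/
def Lfil (b : Basis ι K V) (lev : ι → ℕ) (l : ℤ) : Submodule K V := sub b {k | (lev k : ℤ) ≤ l}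

/-- The subspace of weight `j`. -/
def wts (b : Basis ι K V) (wgt : ι → ℕ) (j : ℤ) : Submodule K V := sub b {k | (wgt k : ℤ) = j}

/-- The operators `N₀` and `N₁` commute, are compatible with the weights and the levels. -/
structure Adapted (b : Basis ι K V) (lev wgt : ι → ℕ) (m : ℕ) (N₀ N₁ : Module.End K V) : Prop where
  lev_le : ∀ i, lev i ≤ 2 * m
  wgt_le : ∀ i, wgt i ≤ 2 * m
  comm : N₀ * N₁ = N₁ * N₀
  h0 : ∀ i, N₀ (b i) ∈ sub b {k | wgt k + 2 = wgt i ∧ lev k ≤ lev i}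
  h1 : ∀ i, N₁ (b i) ∈ sub b {k | wgt k + 2 = wgt i ∧ lev k + 2 ≤ lev i}

/-- The family of operators conjugate to `N₀`. -/
noncomputable def P0 (b : Basis ι K V) (lev : ι → ℕ) (N₀ : Module.End K V) : Matrix ι ι K[X] :=
  Matrix.of fun k i => C (b.repr (N₀ (b i)) k) * X ^ (lev i - lev k)

/-- The family of operators conjugate to multiples of `N₁`. -/
noncomputable def P1 (b : Basis ι K V) (lev : ι → ℕ) (N₁ : Module.End K V) : Matrix ι ι K[X] :=
  Matrix.of fun k i => C (b.repr (N₁ (b i)) k) * X ^ (lev i - lev k - 2)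

lemma ev_repr (M : Matrix ι ι K[X]) (s : K) (i k : ι) :
    b.repr (ev b M s (b i)) k = (M k i).eval s := by
  rw [ev, Matrix.toLin_self, map_sum, Finsupp.finsetSum_apply, Finset.sum_eq_single k]
  · simp
  · intro j _ hj
    simp [Finsupp.single_apply, hj]
  · intro h; exact absurd (Finset.mem_univ k) h

section

variable (A : Adapted b lev wgt m N₀ N₁)

include A

lemma Adapted.c0_zero {i k : ι} (h : ¬ (wgt k + 2 = wgt i ∧ lev k ≤ lev i)) :
    b.repr (N₀ (b i)) k = 0 := mem_sub.1 (A.h0 i) k h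

lemma Adapted.c1_zero {i k : ι} (h : ¬ (wgt k + 2 = wgt i ∧ lev k + 2 ≤ lev i)) :
    b.repr (N₁ (b i)) k = 0 := mem_sub.1 (A.h1 i) k h

omit A in
lemma repr_mul (f g : Module.End K V) (i k : ι) :
    b.repr ((f * g) (b i)) k = ∑ j, b.repr (f (b j)) k * b.repr (g (b i)) j := by
  have h1 : g (b i) = ∑ j, b.repr (g (b i)) j • b j := (b.sum_repr _).symm
  rw [Module.End.mul_apply]
  conv_lhs => rw [h1]
  rw [map_sum, map_sum, Finsupp.finsetSum_apply]
  refine Finset.sum_congr rfl fun j _ => ?_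
  rw [map_smul, map_smul, Finsupp.smul_apply, smul_eq_mul, mul_comm]

lemma Adapted.P_comm : P0 b lev N₀ * P1 b lev N₁ = P1 b lev N₁ * P0 b lev N₀ := by
  ext1 k i
  rw [Matrix.mul_apply, Matrix.mul_apply]
  have h1 : ∀ j, P0 b lev N₀ k j * P1 b lev N₁ j i =
      C (b.repr (N₀ (b j)) k * b.repr (N₁ (b i)) j) * X ^ (lev i - lev k - 2) := by
    intro j
    simp only [P0, P1, Matrix.of_apply]
    by_cases h0 : wgt k + 2 = wgt j ∧ lev k ≤ lev j
    · by_cases h2 : wgt j + 2 = wgt i ∧ lev j + 2 ≤ lev i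
      · rw [show lev i - lev k - 2 = (lev j - lev k) + (lev i - lev j - 2) by omega, pow_add, C_mul]
        ring
      · rw [A.c1_zero h2]; simp
    · rw [A.c0_zero h0]; simp
  have h2 : ∀ j, P1 b lev N₁ k j * P0 b lev N₀ j i =
      C (b.repr (N₁ (b j)) k * b.repr (N₀ (b i)) j) * X ^ (lev i - lev k - 2) := by
    intro j
    simp only [P0, P1, Matrix.of_apply]
    by_cases h0 : wgt k + 2 = wgt j ∧ lev k + 2 ≤ lev j
    · by_cases h2 : wgt j + 2 = wgt i ∧ lev j ≤ lev i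
      · rw [show lev i - lev k - 2 = (lev j - lev k - 2) + (lev i - lev j) by omega, pow_add, C_mul]
        ring
      · rw [A.c0_zero h2]; simp
    · rw [A.c1_zero h0]; simp
  simp_rw [h1, h2]
  rw [← Finset.sum_mul, ← Finset.sum_mul, ← map_sum, ← map_sum, ← repr_mul, ← repr_mul, A.comm]

/-- The graded operator of `N₀`. -/
noncomputable def _root_.Pool.Agent.TH131.Near.G0 (b : Basis ι K V) (lev : ι → ℕ)
    (N₀ : Module.End K V) : Module.End K V := ev b (P0 b lev N₀) 0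

/-- The graded operator of `N₁`. -/
noncomputable def _root_.Pool.Agent.TH131.Near.G1 (b : Basis ι K V) (lev : ι → ℕ)
    (N₁ : Module.End K V) : Module.End K V := ev b (P1 b lev N₁) 0

lemma Adapted.G_comm : G0 b lev N₀ * G1 b lev N₁ = G1 b lev N₁ * G0 b lev N₀ := by
  rw [G0, G1, ← ev_mul, ← ev_mul, A.P_comm]

lemma Adapted.G0_repr (i k : ι) : b.repr (G0 b lev N₀ (b i)) k =
    if lev k = lev i then b.repr (N₀ (b i)) k else 0 := by
  rw [G0, ev_repr]
  simp only [P0, Matrix.of_apply, eval_mul, eval_C, eval_pow, eval_X]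
  by_cases h : wgt k + 2 = wgt i ∧ lev k ≤ lev i
  · split_ifs with h1
    · rw [h1, Nat.sub_self, pow_zero, mul_one]
    · rw [zero_pow (by omega), mul_zero]
  · rw [A.c0_zero h]; simp

lemma Adapted.G1_repr (i k : ι) : b.repr (G1 b lev N₁ (b i)) k =
    if lev k + 2 = lev i then b.repr (N₁ (b i)) k else 0 := by
  rw [G1, ev_repr]
  simp only [P1, Matrix.of_apply, eval_mul, eval_C, eval_pow, eval_X]
  by_cases h : wgt k + 2 = wgt i ∧ lev k + 2 ≤ lev i
  · split_ifs with h1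
    · rw [show lev i - lev k - 2 = 0 by omega, pow_zero, mul_one]
    · rw [zero_pow (by omega), mul_zero]
  · rw [A.c1_zero h]; simp

lemma Adapted.G0_mem (i : ι) :
    G0 b lev N₀ (b i) ∈ sub b {k | wgt k + 2 = wgt i ∧ lev k = lev i} := by
  rw [mem_sub]
  intro k hk
  rw [A.G0_repr]
  split_ifs with h
  · exact A.c0_zero fun h' => hk ⟨h'.1, h⟩
  · rfl

lemma Adapted.G1_mem (i : ι) :
    G1 b lev N₁ (b i) ∈ sub b {k | wgt k + 2 = wgt i ∧ lev k + 2 = lev i} := by
  rw [mem_sub]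
  intro k hk
  rw [A.G1_repr]
  split_ifs with h
  · exact A.c1_zero fun h' => hk ⟨h'.1, h⟩
  · rfl

lemma Adapted.G0_sub (i : ι) :
    (N₀ - G0 b lev N₀) (b i) ∈ sub b {k | wgt k + 2 = wgt i ∧ lev k + 1 ≤ lev i} := by
  rw [mem_sub]
  intro k hk
  rw [LinearMap.sub_apply, map_sub, Finsupp.sub_apply, A.G0_repr]
  split_ifs with h
  · rw [sub_self]
  · rw [sub_zero]
    refine A.c0_zero fun h' => hk ⟨h'.1, ?_⟩
    have := h'.2
    omega

lemma Adapted.G1_sub (i : ι) :
    (N₁ - G1 b lev N₁) (b i) ∈ sub b {k | wgt k + 2 = wgt i ∧ lev k + 3 ≤ lev i} := by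
  rw [mem_sub]
  intro k hk
  rw [LinearMap.sub_apply, map_sub, Finsupp.sub_apply, A.G1_repr]
  split_ifs with h
  · rw [sub_self]
  · rw [sub_zero]
    refine A.c1_zero fun h' => hk ⟨h'.1, ?_⟩
    have := h'.2
    omega

/-! ### Powers -/

lemma Adapted.N0_L {l : ℤ} {x : V} (hx : x ∈ Lfil b lev l) : N₀ x ∈ Lfil b lev l := by
  refine sub_map hx fun i hi => sub_mono ?_ (A.h0 i)
  intro k hk
  have h1 : (lev i : ℤ) ≤ l := hi
  have h2 := hk.2
  change (lev k : ℤ) ≤ l
  omega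

lemma Adapted.G0_L {l : ℤ} {x : V} (hx : x ∈ Lfil b lev l) : G0 b lev N₀ x ∈ Lfil b lev l := by
  refine sub_map hx fun i hi => sub_mono ?_ (A.G0_mem i)
  intro k hk
  have h1 : (lev i : ℤ) ≤ l := hi
  have h2 := hk.2
  change (lev k : ℤ) ≤ l
  omega

lemma Adapted.D0_L {l : ℤ} {x : V} (hx : x ∈ Lfil b lev l) :
    N₀ x - G0 b lev N₀ x ∈ Lfil b lev (l - 1) := by
  refine sub_map (f := N₀ - G0 b lev N₀) hx fun i hi => sub_mono ?_ (A.G0_sub i)
  intro k hk
  have h1 : (lev i : ℤ) ≤ l := hi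
  have h2 := hk.2
  change (lev k : ℤ) ≤ l - 1
  omega

lemma Adapted.N1_L {l : ℤ} {x : V} (hx : x ∈ Lfil b lev l) : N₁ x ∈ Lfil b lev (l - 2) := by
  refine sub_map hx fun i hi => sub_mono ?_ (A.h1 i)
  intro k hk
  have h1 : (lev i : ℤ) ≤ l := hi
  have h2 := hk.2
  change (lev k : ℤ) ≤ l - 2
  omega

lemma Adapted.G1_L {l : ℤ} {x : V} (hx : x ∈ Lfil b lev l) :
    G1 b lev N₁ x ∈ Lfil b lev (l - 2) := by
  refine sub_map hx fun i hi => sub_mono ?_ (A.G1_mem i)
  intro k hk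
  have h1 : (lev i : ℤ) ≤ l := hi
  have h2 := hk.2
  change (lev k : ℤ) ≤ l - 2
  omega

lemma Adapted.D1_L {l : ℤ} {x : V} (hx : x ∈ Lfil b lev l) :
    N₁ x - G1 b lev N₁ x ∈ Lfil b lev (l - 3) := by
  refine sub_map (f := N₁ - G1 b lev N₁) hx fun i hi => sub_mono ?_ (A.G1_sub i)
  intro k hk
  have h1 : (lev i : ℤ) ≤ l := hi
  have h2 := hk.2
  change (lev k : ℤ) ≤ l - 3
  omega

omit A in
lemma L_mono {l l' : ℤ} (h : l ≤ l') : Lfil b lev l ≤ Lfil b lev l' :=
  sub_mono fun k hk => le_trans (show (lev k : ℤ) ≤ l from hk) h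

lemma Adapted.pow0 (r : ℕ) {l : ℤ} {x : V} (hx : x ∈ Lfil b lev l) :
    (N₀ ^ r) x ∈ Lfil b lev l ∧ (N₀ ^ r) x - (G0 b lev N₀ ^ r) x ∈ Lfil b lev (l - 1) := by
  induction r with
  | zero => simpa using hx
  | succ r ih =>
    refine ⟨?_, ?_⟩
    · rw [pow_succ', Module.End.mul_apply]
      exact A.N0_L ih.1
    · rw [pow_succ', pow_succ', Module.End.mul_apply, Module.End.mul_apply]
      have h1 := A.D0_L ih.1
      have h2 := A.G0_L ih.2
      rw [map_sub] at h2
      have h3 := add_mem h1 h2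
      rwa [sub_add_sub_cancel] at h3

lemma Adapted.pow1 (r : ℕ) {l : ℤ} {x : V} (hx : x ∈ Lfil b lev l) :
    (N₁ ^ r) x ∈ Lfil b lev (l - 2 * r) ∧
      (N₁ ^ r) x - (G1 b lev N₁ ^ r) x ∈ Lfil b lev (l - 2 * r - 1) := by
  induction r with
  | zero => simpa using hx
  | succ r ih =>
    have e : l - 2 * ((r + 1 : ℕ) : ℤ) = l - 2 * r - 2 := by push_cast; ring
    rw [e]
    refine ⟨?_, ?_⟩
    · rw [pow_succ', Module.End.mul_apply]
      exact A.N1_L ih.1
    · rw [pow_succ', pow_succ', Module.End.mul_apply, Module.End.mul_apply]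
      have h1 := L_mono (b := b) (lev := lev) (show l - 2 * r - 3 ≤ l - 2 * r - 2 - 1 by omega)
        (A.D1_L ih.1)
      have h2 := A.G1_L ih.2
      rw [map_sub, show l - 2 * r - 1 - 2 = l - 2 * r - 2 - 1 by ring] at h2
      have h3 := add_mem h1 h2
      rwa [sub_add_sub_cancel] at h3

end

/-! ### Cutting vectors -/

/-- The part of `x` supported on `s`. -/
noncomputable def cut (b : Basis ι K V) (s : Set ι) [DecidablePred (· ∈ s)] (x : V) : V :=
  ∑ i, (if i ∈ s then b.repr x i else 0) • b i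

lemma repr_cut (s : Set ι) [DecidablePred (· ∈ s)] (x : V) (i : ι) :
    b.repr (cut b s x) i = if i ∈ s then b.repr x i else 0 := by
  rw [cut, map_sum, Finsupp.finsetSum_apply, Finset.sum_eq_single i]
  · rw [map_smul, Finsupp.smul_apply, b.repr_self, Finsupp.single_eq_same, smul_eq_mul, mul_one]
  · intro j _ hj
    rw [map_smul, Finsupp.smul_apply, b.repr_self, Finsupp.single_eq_of_ne hj.symm, smul_zero]
  · intro h; exact absurd (Finset.mem_univ i) h

lemma cut_mem (s : Set ι) [DecidablePred (· ∈ s)] (x : V) : cut b s x ∈ sub b s := by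
  rw [mem_sub]
  intro i hi
  rw [repr_cut, if_neg hi]

end Pool.Agent.TH131.Near
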