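import Pool.Agent.W498.Dom.Bi

/-!
# Two commuting monodromy operators: linear algebra
-/

set_option autoImplicit false

namespace Pool.Agent.TH131.Near

open Module Polynomial Pool.Agent.H914 Pool.Agent.H447 Pool.Agent.W498.Dom

section Basis

variable {K : Type*} [Field K] {V : Type*} [AddCommGroup V] [Module K V] {ι : Type*}
  (b : Basis ι K V)

/-- The subspace spanned by a part of the basis. -/
def sub (s : Set ι) : Submodule K V := Submodule.span K (b '' s)

variable {b}

lemma mem_sub {s : Set ι} {x : V} : x ∈ sub b s ↔ ∀ i, i ∉ s → b.repr x i = 0 := by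
  rw [sub, Basis.mem_span_image]
  constructor
  · intro h i hi
    by_contra h0
    exact hi (h (Finsupp.mem_support_iff.2 h0))
  · intro h i hi
    by_contra h0
    exact Finsupp.mem_support_iff.1 hi (h i h0)

lemma basis_mem_sub {s : Set ι} {i : ι} (hi : i ∈ s) : b i ∈ sub b s :=
  Submodule.subset_span ⟨i, hi, rfl⟩

lemma sub_mono {s t : Set ι} (h : s ⊆ t) : sub b s ≤ sub b t :=
  Submodule.span_mono (Set.image_mono h)

lemma sub_induction {s : Set ι} {x : V} (hx : x ∈ sub b s) {W : Submodule K V}
    (h : ∀ i ∈ s, b i ∈ W) : x ∈ W := by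
  have : sub b s ≤ W := Submodule.span_le.2 (by rintro _ ⟨i, hi, rfl⟩; exact h i hi)
  exact this hx

lemma sub_map {s : Set ι} {x : V} (hx : x ∈ sub b s) {W : Submodule K V} {f : Module.End K V}
    (h : ∀ i ∈ s, f (b i) ∈ W) : f x ∈ W :=
  sub_induction (W := W.comap f) hx h

/-- The part of the basis where `f` has the value `n`. -/
def part (b : Basis ι K V) (f : ι → ℕ) (n : ℕ) : Submodule K V := sub b {i | f i = n}

lemma internal_part (f : ι → ℕ) : DirectSum.IsInternal (part b f) := by
  apply DirectSum.isInternal_submodule_of_iSupIndep_of_iSup_eq_top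
  · intro n
    have h1 : (⨆ j, ⨆ (_ : j ≠ n), part b f j) ≤ sub b {i | f i ≠ n} := by
      refine iSup_le fun j => iSup_le fun hj => sub_mono ?_
      intro i hi
      change f i = j at hi
      change f i ≠ n
      rw [hi]; exact hj
    refine Disjoint.mono_right h1 ?_
    rw [Submodule.disjoint_def]
    intro x h2 h3
    rw [part, mem_sub] at h2
    rw [mem_sub] at h3
    apply b.ext_elem
    intro i
    rw [map_zero, Finsupp.zero_apply]
    by_cases hi : f i = n
    · exact h3 i (by simpa using hi)
    · exact h2 i hi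
  · rw [eq_top_iff, ← b.span_eq, Submodule.span_le]
    rintro _ ⟨i, rfl⟩
    exact Submodule.mem_iSup_of_mem (f i) (basis_mem_sub rfl)

lemma part_eq_bot {f : ι → ℕ} {n : ℕ} (h : ∀ i, f i ≠ n) : part b f n = ⊥ := by
  rw [eq_bot_iff]
  intro x hx
  rw [part, mem_sub] at hx
  rw [Submodule.mem_bot]
  apply b.ext_elem
  intro i
  rw [map_zero, Finsupp.zero_apply]
  exact hx i (h i)

/-- An operator which raises `f` by `d` on the basis. -/
lemma isHom_part {f : ι → ℕ} {d : ℕ} {y : Module.End K V}
    (h : ∀ i, y (b i) ∈ part b f (f i + d)) : IsHom (part b f) d y := by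
  intro i a ha
  by_cases hi : 0 ≤ i
  · lift i to ℕ using hi
    rw [grZ_natCast] at ha
    rw [show (i : ℤ) + d = ((i + d : ℕ) : ℤ) by push_cast; ring, grZ_natCast]
    refine sub_map ha fun k hk => ?_
    have := h k
    rw [show f k = i from hk] at this
    exact this
  · rw [grZ_of_neg (by omega)] at ha
    rw [(Submodule.mem_bot _).1 ha, map_zero]
    exact Submodule.zero_mem _

end Basis

section Generic

variable {K : Type*} [Field K] {V : Type*} [AddCommGroup V] [Module K V] {ι : Type*} [Fintype ι]
  [DecidableEq ι] (b : Basis ι K V)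

/-- The value at `s` of an operator with polynomial entries. -/
noncomputable def ev (M : Matrix ι ι K[X]) (s : K) : Module.End K V :=
  Matrix.toLin b b (M.map (Polynomial.eval s))

variable {b}

lemma map_eval (M : Matrix ι ι K[X]) (s : K) :
    M.map (Polynomial.eval s) = (Polynomial.evalRingHom s).mapMatrix M := rfl

lemma ev_mul (M M' : Matrix ι ι K[X]) (s : K) : ev b (M * M') s = ev b M s * ev b M' s := by
  rw [ev, ev, ev, map_eval, map_mul, ← map_eval, ← map_eval, Matrix.toLin_mul b b b]
  rfl

lemma ev_add (M M' : Matrix ι ι K[X]) (s : K) : ev b (M + M') s = ev b M s + ev b M' s := by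
  rw [ev, ev, ev, map_eval, map_add, ← map_eval, ← map_eval, map_add]

lemma ev_one (s : K) : ev b (1 : Matrix ι ι K[X]) s = 1 := by
  rw [ev, map_eval, map_one, Matrix.toLin_one]
  rfl

lemma ev_pow (M : Matrix ι ι K[X]) (s : K) (n : ℕ) : ev b (M ^ n) s = ev b M s ^ n := by
  induction n with
  | zero => rw [pow_zero, pow_zero, ev_one]
  | succ n ih => rw [pow_succ, pow_succ, ev_mul, ih]

/-- An operator without parameter. -/
noncomputable def con (b : Basis ι K V) (y : Module.End K V) : Matrix ι ι K[X] :=
  (LinearMap.toMatrix b b y).map C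

lemma ev_con (y : Module.End K V) (s : K) : ev b (con b y) s = y := by
  rw [ev, con]
  have : ((LinearMap.toMatrix b b y).map C).map (Polynomial.eval s) = LinearMap.toMatrix b b y := by
    ext i j; simp
  rw [this, Matrix.toLin_toMatrix]

lemma det_ev (M : Matrix ι ι K[X]) (s : K) : LinearMap.det (ev b M s) = M.det.eval s := by
  rw [ev, LinearMap.det_toLin, map_eval, ← RingHom.map_det]
  rfl

/-- If an operator depending polynomially on a parameter is injective on a subspace `U` for one
value of the parameter, then it is injective on `U` for all values outside of the zeros of a nonzero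
polynomial. -/
lemma generic_injective (M : Matrix ι ι K[X]) (U : Submodule K V) (s₀ : K)
    (h : ∀ x ∈ U, ev b M s₀ x = 0 → x = 0) :
    ∃ p : K[X], p.eval s₀ ≠ 0 ∧ ∀ s, p.eval s ≠ 0 → ∀ x ∈ U, ev b M s x = 0 → x = 0 := by
  obtain ⟨W, hW⟩ := Submodule.exists_isCompl U
  let π : Module.End K V := U.subtype ∘ₗ U.projectionOnto W hW
  have hπ : ∀ x ∈ U, π x = x := by
    intro x hx
    have h1 := Submodule.projectionOnto_apply_left hW ⟨x, hx⟩
    exact congrArg Subtype.val h1
  have hπU : ∀ x, π x ∈ U := fun x => (U.projectionOnto W hW x).2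
  -- a left inverse on `U`
  have hinj : LinearMap.ker ((ev b M s₀) ∘ₗ U.subtype) = ⊥ := by
    rw [LinearMap.ker_eq_bot']
    intro x hx
    exact Subtype.ext (h x.1 x.2 hx)
  obtain ⟨g, hg⟩ := LinearMap.exists_leftInverse_of_injective _ hinj
  let G : Module.End K V := U.subtype ∘ₗ g
  have hG : ∀ x ∈ U, G (ev b M s₀ x) = x := by
    intro x hx
    have h1 := congrArg (fun F => (F ⟨x, hx⟩ : U)) hg
    have h2 : g (ev b M s₀ x) = ⟨x, hx⟩ := h1
    simp only [G, LinearMap.comp_apply]
    rw [h2]
    rfl
  let R : Matrix ι ι K[X] := con b G * M * con b π + con b (1 - π)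
  have hR : ∀ s, ev b R s = G * ev b M s * π + (1 - π) := by
    intro s
    rw [ev_add, ev_mul, ev_mul, ev_con, ev_con, ev_con]
  refine ⟨R.det, ?_, fun s hs x hx hx0 => ?_⟩
  · rw [← det_ev (b := b), hR]
    have : G * ev b M s₀ * π + (1 - π) = 1 := by
      ext x
      rw [LinearMap.add_apply, Module.End.mul_apply, Module.End.mul_apply, hG _ (hπU x)]
      simp
    rw [this, map_one]
    exact one_ne_zero
  · rw [← det_ev (b := b), hR] at hs
    have h1 : (G * ev b M s * π + (1 - π)) x = x - x := by
      rw [LinearMap.add_apply, Module.End.mul_apply, Module.End.mul_apply, hπ x hx, hx0, map_zero,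
        LinearMap.sub_apply, Module.End.one_apply, hπ x hx, zero_add]
    rw [sub_self] at h1
    have h2 : IsUnit (G * ev b M s * π + (1 - π)) := by
      have : Module.Finite K V := Module.Finite.of_basis b
      rw [LinearMap.isUnit_iff_isUnit_det]
      exact isUnit_iff_ne_zero.2 hs
    have h3 := (Module.End.isUnit_iff _).1 h2
    exact h3.1 (by rw [h1, map_zero])

end Generic

end Pool.Agent.TH131.Near
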