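import Pool.Agent.TH131.Near.Gr

/-!
# Two commuting monodromy operators: the graded operators satisfy the Lefschetz property
-/

set_option autoImplicit false

namespace Pool.Agent.TH131.Near

open Module Polynomial Pool.Agent.H914 Pool.Agent.H447 Pool.Agent.W498.Dom

variable {K : Type*} [Field K] {V : Type*} [AddCommGroup V] [Module K V] {ι : Type*} [Fintype ι]
  [DecidableEq ι] {b : Basis ι K V} {lev wgt : ι → ℕ} {m : ℕ} {N₀ N₁ : Module.End K V}

/-- `L` is the monodromy filtration of `N`, centred at `m`. -/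
def IsMono (L : ℤ → Submodule K V) (N : Module.End K V) (m : ℤ) : Prop :=
  ∀ r : ℕ, (∀ x ∈ L (m + r), (N ^ r) x ∈ L (m - r - 1) → x ∈ L (m + r - 1)) ∧
    ∀ y ∈ L (m - r), ∃ x ∈ L (m + r), (N ^ r) x - y ∈ L (m - r - 1)

/-- The graded piece `L l / L (l - 1)` is pure of weight `l` for the operator `N`. -/
def IsPurePiece (W L : ℤ → Submodule K V) (N : Module.End K V) (l : ℤ) : Prop :=
  ∀ r : ℕ, (∀ x ∈ L l ⊓ W (l + r), (N ^ r) x ∈ L (l - 1) → x ∈ L (l - 1)) ∧
    ∀ y ∈ L l ⊓ W (l - r), ∃ x ∈ L l ⊓ W (l + r), (N ^ r) x - y ∈ L (l - 1)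

lemma eq_zero_of_mem {s t : Set ι} (h : ∀ i, i ∈ s → i ∉ t) {x : V} (hs : x ∈ sub b s)
    (ht : x ∈ sub b t) : x = 0 := by
  apply b.ext_elem
  intro i
  rw [map_zero, Finsupp.zero_apply]
  by_cases hi : i ∈ s
  · exact mem_sub.1 ht i (h i hi)
  · exact mem_sub.1 hs i hi

lemma sub_inf {s t : Set ι} {x : V} (hs : x ∈ sub b s) (ht : x ∈ sub b t) :
    x ∈ sub b (s ∩ t) := by
  rw [mem_sub] at *
  intro i hi
  by_cases h : i ∈ s
  · exact ht i fun h' => hi ⟨h, h'⟩
  · exact hs i h

section

variable (A : Adapted b lev wgt m N₀ N₁)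

include A

lemma Adapted.pow_G0_mem (r : ℕ) (l j : ℤ) {x : V}
    (hx : x ∈ sub b {k | (lev k : ℤ) = l ∧ (wgt k : ℤ) = j}) :
    (G0 b lev N₀ ^ r) x ∈ sub b {k | (lev k : ℤ) = l ∧ (wgt k : ℤ) = j - 2 * r} := by
  induction r with
  | zero => simpa using hx
  | succ r ih =>
    rw [pow_succ', Module.End.mul_apply]
    refine sub_map ih fun i hi => sub_mono ?_ (A.G0_mem i)
    intro k hk
    have h1 := hi.1
    have h2 := hi.2
    have h3 := hk.1
    have h4 := hk.2
    refine ⟨?_, ?_⟩ <;> push_cast at * <;> omega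

lemma Adapted.pow_G1_mem (r : ℕ) (l : ℤ) {x : V}
    (hx : x ∈ sub b {k | (lev k : ℤ) = l}) :
    (G1 b lev N₁ ^ r) x ∈ sub b {k | (lev k : ℤ) = l - 2 * r} := by
  induction r with
  | zero => simpa using hx
  | succ r ih =>
    rw [pow_succ', Module.End.mul_apply]
    refine sub_map ih fun i hi => sub_mono ?_ (A.G1_mem i)
    intro k hk
    have h1 : (lev i : ℤ) = l - 2 * r := hi
    have h4 := hk.2
    change (lev k : ℤ) = _
    push_cast
    omega

/-- The first grading, by the levels. -/
def _root_.Pool.Agent.TH131.Near.levP (lev : ι → ℕ) (m : ℕ) (i : ι) : ℕ := 2 * m - lev i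

/-- The second grading. -/
def _root_.Pool.Agent.TH131.Near.levQ (lev wgt : ι → ℕ) (m : ℕ) (i : ι) : ℕ :=
  2 * m + lev i - wgt i

lemma Adapted.isHom_P1 : IsHom (part b (levP lev m)) 2 (G1 b lev N₁) := by
  refine isHom_part (d := 2) fun i => sub_mono ?_ (A.G1_mem i)
  intro k hk
  have h1 := hk.2
  have h2 := A.lev_le i
  simp only [Set.mem_setOf_eq, levP]
  omega

lemma Adapted.isHom_P0 : IsHom (part b (levP lev m)) 0 (G0 b lev N₀) := by
  refine isHom_part (d := 0) fun i => sub_mono ?_ (A.G0_mem i)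
  intro k hk
  have h1 := hk.2
  simp only [Set.mem_setOf_eq, levP]
  omega

lemma Adapted.isHom_Q0 : IsHom (part b (levQ lev wgt m)) 2 (G0 b lev N₀) := by
  refine isHom_part (d := 2) fun i => sub_mono ?_ (A.G0_mem i)
  intro k hk
  have h1 := hk.1
  have h2 := hk.2
  have h3 := A.wgt_le i
  simp only [Set.mem_setOf_eq, levQ]
  omega

lemma Adapted.isHom_Q1 : IsHom (part b (levQ lev wgt m)) 0 (G1 b lev N₁) := by
  refine isHom_part (d := 0) fun i => sub_mono ?_ (A.G1_mem i)
  intro k hk
  have h1 := hk.1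
  have h2 := hk.2
  have h3 := A.wgt_le i
  simp only [Set.mem_setOf_eq, levQ]
  omega

lemma Adapted.hardLef_P (hL : IsMono (Lfil b lev) N₁ m) :
    HardLef (part b (levP lev m)) m (G1 b lev N₁) := by
  intro p hp
  obtain ⟨h1, h2⟩ := hL (m - p)
  have e : ((m - p : ℕ) : ℤ) = m - p := by omega
  have hsub : ∀ q : ℕ, q ≤ 2 * m → ∀ x : V, x ∈ part b (levP lev m) q ↔
      x ∈ sub b {k | (lev k : ℤ) = 2 * m - q} := by
    intro q hq x
    have : {i | levP lev m i = q} = {k | (lev k : ℤ) = 2 * m - q} := by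
      ext i
      have := A.lev_le i
      simp only [Set.mem_setOf_eq, levP]
      omega
    rw [part, this]
  constructor
  · intro x hx hx0
    rw [hsub p (by omega)] at hx
    have hxL : x ∈ Lfil b lev (m + ((m - p : ℕ) : ℤ)) := by
      refine sub_mono ?_ hx
      intro k hk
      have : (lev k : ℤ) = 2 * m - p := hk
      change (lev k : ℤ) ≤ _
      omega
    have h3 := (A.pow1 (m - p) hxL).2
    rw [hx0, sub_zero] at h3
    have h4 := h1 x hxL (by
      convert h3 using 2
      omega)
    refine eq_zero_of_mem ?_ hx h4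
    intro k hk hk'
    have h5 : (lev k : ℤ) = 2 * m - p := hk
    have h6 : (lev k : ℤ) ≤ m + ((m - p : ℕ) : ℤ) - 1 := hk'
    omega
  · intro y hy
    rw [hsub _ (by omega)] at hy
    have hyL : y ∈ Lfil b lev (m - ((m - p : ℕ) : ℤ)) := by
      refine sub_mono ?_ hy
      intro k hk
      have : (lev k : ℤ) = 2 * m - ((2 * m - p : ℕ) : ℤ) := hk
      change (lev k : ℤ) ≤ _
      omega
    obtain ⟨x', hx', hxy⟩ := h2 y hyL
    classical
    let s : Set ι := {k | (lev k : ℤ) = 2 * m - p}
    refine ⟨cut b s x', (hsub p (by omega) _).2 (cut_mem s x'), ?_⟩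
    have hcut : x' - cut b s x' ∈ Lfil b lev (m + ((m - p : ℕ) : ℤ) - 1) := by
      rw [Lfil, mem_sub]
      intro i hi
      rw [map_sub, Finsupp.sub_apply, repr_cut]
      have h0 : ¬ ((lev i : ℤ) ≤ m + ((m - p : ℕ) : ℤ) - 1) := hi
      split_ifs with h
      · rw [sub_self]
      · rw [sub_zero]
        refine mem_sub.1 hx' i ?_
        intro h'
        have h'' : (lev i : ℤ) ≤ m + ((m - p : ℕ) : ℤ) := h'
        apply h
        change (lev i : ℤ) = 2 * m - p
        omega
    have h3 := (A.pow1 (m - p) hcut).1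
    rw [map_sub] at h3
    have h4 : cut b s x' ∈ Lfil b lev (m + ((m - p : ℕ) : ℤ)) := by
      refine sub_mono ?_ (cut_mem s x')
      intro k hk
      have : (lev k : ℤ) = 2 * m - p := hk
      change (lev k : ℤ) ≤ _
      omega
    have h5 := (A.pow1 (m - p) h4).2
    rw [← sub_eq_zero]
    have h6 : (G1 b lev N₁ ^ (m - p)) (cut b s x') - y ∈
        Lfil b lev (m - ((m - p : ℕ) : ℤ) - 1) := by
      have e1 : (m : ℤ) + ((m - p : ℕ) : ℤ) - 1 - 2 * ((m - p : ℕ) : ℤ) =
        m - ((m - p : ℕ) : ℤ) - 1 := by ring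
      have e2 : (m : ℤ) + ((m - p : ℕ) : ℤ) - 2 * ((m - p : ℕ) : ℤ) - 1 =
        m - ((m - p : ℕ) : ℤ) - 1 := by ring
      rw [e1] at h3
      rw [e2] at h5
      have h7 := sub_mem (sub_mem hxy h3) h5
      convert h7 using 1
      abel
    have h8 : (G1 b lev N₁ ^ (m - p)) (cut b s x') - y ∈
        sub b {k | (lev k : ℤ) = m - ((m - p : ℕ) : ℤ)} := by
      refine sub_mem ?_ ?_
      · have h9 := A.pow_G1_mem (m - p) (2 * m - p) (x := cut b s x') (cut_mem s x')
        convert h9 using 4
        omega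
      · convert hy using 4
        omega
    refine eq_zero_of_mem ?_ h8 h6
    intro k hk hk'
    have h9 : (lev k : ℤ) = m - ((m - p : ℕ) : ℤ) := hk
    have h10 : (lev k : ℤ) ≤ m - ((m - p : ℕ) : ℤ) - 1 := hk'
    omega

lemma Adapted.cut_G0 (l : ℤ) [DecidablePred (· ∈ ({k | (lev k : ℤ) = l} : Set ι))] (x : V) :
    cut b {k | (lev k : ℤ) = l} (G0 b lev N₀ x) = G0 b lev N₀ (cut b {k | (lev k : ℤ) = l} x) := by
  have key : ∀ x : V, x = ∑ i, b.repr x i • b i := fun x => (b.sum_repr x).symm
  have hadd : ∀ (f : ι → K), cut b {k | (lev k : ℤ) = l} (∑ i, f i • G0 b lev N₀ (b i)) =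
      ∑ i, f i • cut b {k | (lev k : ℤ) = l} (G0 b lev N₀ (b i)) := by
    intro f
    apply b.ext_elem
    intro k
    rw [repr_cut, map_sum, map_sum, Finsupp.finsetSum_apply, Finsupp.finsetSum_apply]
    split_ifs with h
    · refine Finset.sum_congr rfl fun i _ => ?_
      rw [map_smul, map_smul, Finsupp.smul_apply, Finsupp.smul_apply, repr_cut, if_pos h]
    · symm
      refine Finset.sum_eq_zero fun i _ => ?_
      rw [map_smul, Finsupp.smul_apply, repr_cut, if_neg h, smul_zero]
  conv_lhs => rw [key x]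
  rw [map_sum]
  simp_rw [map_smul]
  rw [hadd, cut, map_sum]
  refine Finset.sum_congr rfl fun i _ => ?_
  rw [map_smul]
  by_cases hi : i ∈ ({k | (lev k : ℤ) = l} : Set ι)
  · rw [if_pos hi]
    congr 1
    apply b.ext_elem
    intro k
    rw [repr_cut]
    split_ifs with h
    · rfl
    · rw [A.G0_repr, if_neg]
      intro h'
      apply h
      have : (lev i : ℤ) = l := hi
      change (lev k : ℤ) = l
      omega
  · rw [if_neg hi, zero_smul]
    have : cut b {k | (lev k : ℤ) = l} (G0 b lev N₀ (b i)) = 0 := by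
      apply b.ext_elem
      intro k
      rw [repr_cut, map_zero, Finsupp.zero_apply]
      split_ifs with h
      · rw [A.G0_repr, if_neg]
        intro h'
        apply hi
        have : (lev k : ℤ) = l := h
        change (lev i : ℤ) = l
        omega
      · rfl
    rw [this, smul_zero]

lemma Adapted.cut_pow (r : ℕ) (l : ℤ) [DecidablePred (· ∈ ({k | (lev k : ℤ) = l} : Set ι))]
    (x : V) : cut b {k | (lev k : ℤ) = l} ((G0 b lev N₀ ^ r) x) =
      (G0 b lev N₀ ^ r) (cut b {k | (lev k : ℤ) = l} x) := by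
  induction r generalizing x with
  | zero => simp
  | succ r ih => rw [pow_succ, Module.End.mul_apply, ih, A.cut_G0, Module.End.mul_apply]

lemma Adapted.hardLef_Q (hW : ∀ l, IsPurePiece (wts b wgt) (Lfil b lev) N₀ l) :
    HardLef (part b (levQ lev wgt m)) (2 * m) (G0 b lev N₀) := by
  classical
  intro p hp
  have e : ((2 * m - p : ℕ) : ℤ) = 2 * m - p := by omega
  have hsub : ∀ q : ℕ, ∀ x : V, x ∈ part b (levQ lev wgt m) q ↔
      x ∈ sub b {k | (wgt k : ℤ) = lev k + (2 * m - q)} := by
    intro q x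
    have : {i | levQ lev wgt m i = q} = {k | (wgt k : ℤ) = lev k + (2 * m - q)} := by
      ext i
      have := A.wgt_le i
      simp only [Set.mem_setOf_eq, levQ]
      omega
    rw [part, this]
  -- a vector is zero if all its parts are zero
  have hzero : ∀ x : V, (∀ l : ℤ, cut b {k | (lev k : ℤ) = l} x = 0) → x = 0 := by
    intro x h
    apply b.ext_elem
    intro i
    rw [map_zero, Finsupp.zero_apply]
    have h1 := congrArg (fun z => b.repr z i) (h (lev i))
    simp only [map_zero, Finsupp.zero_apply] at h1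
    rw [repr_cut, if_pos (by rfl)] at h1
    exact h1
  constructor
  · intro x hx hx0
    rw [hsub] at hx
    apply hzero
    intro l
    have h1 : cut b {k | (lev k : ℤ) = l} x ∈
        sub b {k | (lev k : ℤ) = l ∧ (wgt k : ℤ) = l + ((2 * m - p : ℕ) : ℤ)} := by
      rw [mem_sub]
      intro i hi
      rw [repr_cut]
      split_ifs with h
      · refine mem_sub.1 hx i ?_
        intro h'
        apply hi
        have h2 : (wgt i : ℤ) = lev i + (2 * m - p) := h'
        have h3 : (lev i : ℤ) = l := h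
        exact ⟨h3, by omega⟩
      · rfl
    have h2 : (G0 b lev N₀ ^ (2 * m - p)) (cut b {k | (lev k : ℤ) = l} x) = 0 := by
      rw [← A.cut_pow, hx0]
      apply b.ext_elem
      intro i
      rw [repr_cut]
      simp
    have h3 : cut b {k | (lev k : ℤ) = l} x ∈ Lfil b lev l := by
      refine sub_mono ?_ h1
      intro k hk
      exact le_of_eq hk.1
    have h4 : cut b {k | (lev k : ℤ) = l} x ∈ wts b wgt (l + ((2 * m - p : ℕ) : ℤ)) := by
      refine sub_mono ?_ h1
      intro k hk
      exact hk.2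
    have h5 := (A.pow0 (2 * m - p) h3).2
    rw [h2, sub_zero] at h5
    have h6 := (hW l (2 * m - p)).1 _ ⟨h3, h4⟩ h5
    refine eq_zero_of_mem ?_ h1 h6
    intro k hk hk'
    have h7 := hk.1
    have h8 : (lev k : ℤ) ≤ l - 1 := hk'
    omega
  · intro y hy
    rw [hsub] at hy
    have key : ∀ l : ℤ, ∃ x ∈ sub b {k | (lev k : ℤ) = l ∧ (wgt k : ℤ) = l + (2 * m - p)},
        (G0 b lev N₀ ^ (2 * m - p)) x = cut b {k | (lev k : ℤ) = l} y := by
      intro l
      have h1 : cut b {k | (lev k : ℤ) = l} y ∈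
          sub b {k | (lev k : ℤ) = l ∧ (wgt k : ℤ) = l - ((2 * m - p : ℕ) : ℤ)} := by
        rw [mem_sub]
        intro i hi
        rw [repr_cut]
        split_ifs with h
        · refine mem_sub.1 hy i ?_
          intro h'
          apply hi
          have h2 : (wgt i : ℤ) = lev i + (2 * m - ((2 * (2 * m) - p : ℕ) : ℤ)) := h'
          have h3 : (lev i : ℤ) = l := h
          exact ⟨h3, by omega⟩
        · rfl
      have h3 : cut b {k | (lev k : ℤ) = l} y ∈ Lfil b lev l := by
        refine sub_mono ?_ h1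
        intro k hk
        exact le_of_eq hk.1
      have h4 : cut b {k | (lev k : ℤ) = l} y ∈ wts b wgt (l - ((2 * m - p : ℕ) : ℤ)) := by
        refine sub_mono ?_ h1
        intro k hk
        exact hk.2
      obtain ⟨x', ⟨hx1, hx2⟩, hxy⟩ := (hW l (2 * m - p)).2 _ ⟨h3, h4⟩
      have hx : cut b {k | (lev k : ℤ) = l} x' ∈
          sub b {k | (lev k : ℤ) = l ∧ (wgt k : ℤ) = l + (2 * m - p)} := by
        rw [mem_sub]
        intro i hi
        rw [repr_cut]
        split_ifs with h
        · refine mem_sub.1 hx2 i ?_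
          intro h'
          apply hi
          have h5 : (wgt i : ℤ) = l + ((2 * m - p : ℕ) : ℤ) := h'
          exact ⟨h, by omega⟩
        · rfl
      refine ⟨_, hx, ?_⟩
      have hcut : x' - cut b {k | (lev k : ℤ) = l} x' ∈ Lfil b lev (l - 1) := by
        rw [Lfil, mem_sub]
        intro i hi
        rw [map_sub, Finsupp.sub_apply, repr_cut]
        have h0 : ¬ ((lev i : ℤ) ≤ l - 1) := hi
        split_ifs with h
        · rw [sub_self]
        · rw [sub_zero]
          refine mem_sub.1 hx1 i ?_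
          intro h'
          have h'' : (lev i : ℤ) ≤ l := h'
          apply h
          change (lev i : ℤ) = l
          omega
      have h5 := (A.pow0 (2 * m - p) hcut).1
      rw [map_sub] at h5
      have h6 : cut b {k | (lev k : ℤ) = l} x' ∈ Lfil b lev l := by
        refine sub_mono ?_ hx
        intro k hk
        exact le_of_eq hk.1
      have h7 := (A.pow0 (2 * m - p) h6).2
      rw [← sub_eq_zero]
      have h8 : (G0 b lev N₀ ^ (2 * m - p)) (cut b {k | (lev k : ℤ) = l} x') -
          cut b {k | (lev k : ℤ) = l} y ∈ Lfil b lev (l - 1) := by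
        have h9 := sub_mem (sub_mem hxy h5) h7
        convert h9 using 1
        abel
      have h10 : (G0 b lev N₀ ^ (2 * m - p)) (cut b {k | (lev k : ℤ) = l} x') -
          cut b {k | (lev k : ℤ) = l} y ∈ sub b {k | (lev k : ℤ) = l} := by
        refine sub_mem ?_ (cut_mem _ _)
        refine sub_mono ?_ (A.pow_G0_mem (2 * m - p) l _ hx)
        intro k hk
        exact hk.1
      refine eq_zero_of_mem ?_ h10 h8
      intro k hk hk'
      have h11 : (lev k : ℤ) = l := hk
      have h12 : (lev k : ℤ) ≤ l - 1 := hk'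
      omega
    choose x hx hxy using key
    refine ⟨∑ l ∈ Finset.range (2 * m + 1), x l, ?_, ?_⟩
    · refine Submodule.sum_mem _ fun l _ => ?_
      rw [hsub]
      refine sub_mono ?_ (hx l)
      intro k hk
      have h1 := hk.1
      have h2 := hk.2
      change (wgt k : ℤ) = lev k + (2 * m - p)
      omega
    · rw [map_sum]
      apply b.ext_elem
      intro i
      rw [map_sum, Finsupp.finsetSum_apply]
      simp_rw [hxy, repr_cut]
      rw [Finset.sum_eq_single (lev i)]
      · rw [if_pos (by rfl)]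
      · intro l _ hl
        rw [if_neg]
        intro h
        apply hl
        have : (lev i : ℤ) = (l : ℤ) := h
        omega
      · intro h
        exfalso
        apply h
        have := A.lev_le i
        exact Finset.mem_range.2 (by omega)

end

end Pool.Agent.TH131.Near
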